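import Mathlib
import Pool.Agent.H.MP_ef395a_gt.A

set_option autoImplicit false

namespace Pool.Agent.H.MP_3ce754_lc

open Set Filter Topology Function PiNat

def Ex (σ : List ℕ) (x : ℕ → ℕ) : Prop := res x σ.length = σ

theorem res_suf (z : ℕ → ℕ) {n m : ℕ} (h : n ≤ m) : res z n <:+ res z m := by
  induction m, h using Nat.le_induction with
  | base => exact List.suffix_refl _
  | succ m _ ih => exact ih.trans (List.suffix_cons _ _)

theorem Ex.mono {σ τ : List ℕ} {x : ℕ → ℕ} (h : σ <:+ τ) (hx : Ex τ x) : Ex σ x :=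
  (List.suffix_of_suffix_length_le (hx ▸ res_suf x h.length_le) h (by simp)).eq_of_length (by simp)

theorem ex_res (x : ℕ → ℕ) (k : ℕ) : Ex (res x k) x := by rw [Ex, res_length]

theorem Ex.suf {σ : List ℕ} {x : ℕ → ℕ} (hx : Ex σ x) {k : ℕ} (h : σ.length ≤ k) : σ <:+ res x k :=
  hx ▸ res_suf x h

theorem limx (σ : ℕ → List ℕ) (h1 : ∀ n, σ n <:+ σ (n + 1))
    (h2 : ∀ n, (σ n).length < (σ (n + 1)).length) : ∃ x, ∀ n, Ex (σ n) x ∧ n ≤ (σ n).length := by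
  choose x hx using fun n => MP_ef395a_gt.ex1 (σ n)
  have h3 : ∀ n m, n ≤ m → σ n <:+ σ m := fun n m h => by
    induction m, h using Nat.le_induction with
    | base => exact List.suffix_refl _
    | succ m _ ih => exact ih.trans (h1 m)
  have h4 : ∀ n, n ≤ (σ n).length := (strictMono_nat_of_lt_succ h2).id_le
  have h5 : ∀ n m, n ≤ m → ∀ i < (σ n).length, x m i = x n i := fun n m h =>
    res_eq_res.1 ((Ex.mono (h3 n m h) (hx m)).trans (hx n).symm)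
  refine ⟨fun i => x (i + 1) i, fun n => ⟨(res_eq_res.2 fun i hi => ?_).trans (hx n), h4 n⟩⟩
  exact (h5 _ _ (le_max_left _ n) i (h4 _)).symm.trans (h5 _ _ (le_max_right (i + 1) n) i hi)

def UT (U : Ultrafilter ℕ) (T : Set (List ℕ)) (s : List ℕ) : Prop :=
  s ∈ T ∧ ∀ t ∈ T, ∀ᶠ j in U, j :: t ∈ T

def Br (T : Set (List ℕ)) (s : List ℕ) (z : ℕ → ℕ) : Prop :=
  Ex s z ∧ ∀ n, s.length ≤ n → res z n ∈ T

section
variable (U : Ultrafilter ℕ) (g : (ℕ → ℕ) → ℕ → Bool) (e : ℕ → ℕ → ℕ)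

def Fo (σ : List ℕ) (m : ℕ) (b : Bool) : Prop := ∀ x, Ex σ x → g x m = b

def Bad (s σ : List ℕ) : Prop := ∃ T, UT U T s ∧ ∀ z, Br T s z → ∀ x, Ex σ x →
  {n | g x (e (z n) (z (n + 1))) = true}.Finite

def Prog (s σ t τ : List ℕ) : Prop := Encodable.encode τ ≤ t.length ∧ σ <:+ τ ∧
  σ.length < τ.length ∧ ∃ u i j, s <:+ u ∧ (j :: i :: u) <:+ t ∧ Fo g τ (e i j) true

variable {U g e}

theorem fo (hg : Continuous g) (x : ℕ → ℕ) (m : ℕ) : ∀ᶠ k in atTop, Fo g (res x k) m (g x m) := by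
  obtain ⟨_, ⟨y, k, rfl⟩, h1, h2⟩ := (isTopologicalBasis_cylinders fun _ : ℕ => ℕ).mem_nhds_iff.1
    ((((continuous_apply m).comp hg).tendsto x) (isOpen_discrete {g x m} |>.mem_nhds rfl))
  refine (eventually_ge_atTop k).mono fun l hl w hw => h2 fun i hi => ?_
  rw [Ex, res_length] at hw
  exact (res_eq_res.1 hw (hi.trans_le hl)).trans (h1 i hi)

theorem clo (hg : Continuous g) {s σ : List ℕ} {T : Set (List ℕ)} (hT : UT U T s)
    (h : ∀ t ∈ T, ∀ τ, Prog g e s σ t τ → Bad U g e t τ) : Bad U g e s σ := by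
  choose! R r1 r2 using h
  refine ⟨{u | u ∈ T ∧ ∀ t τ, t ∈ T → t <:+ u → Prog g e s σ t τ → u ∈ R t τ}, ⟨⟨hT.1,
    fun t τ _ h1 ⟨_, _, _, u, i, j, h2, h3, _⟩ => ?_⟩, fun u hu => ?_⟩, fun z hz x hx => ?_⟩
  · have := (h3.trans h1).length_le
    have := h2.length_le
    simp at *
    omega
  · have hf : ({t | t ∈ u.tails} ×ˢ (Encodable.encode ⁻¹' Iic u.length : Set (List ℕ))).Finite :=
      (List.finite_toSet _).prod ((finite_Iic _).preimage Encodable.encode_injective.injOn)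
    filter_upwards [hT.2 u hu.1, hf.eventually_all (p := fun p j => p.1 ∈ T → Prog g e s σ p.1 p.2 →
      j :: u ∈ R p.1 p.2) |>.2 fun p hp => by
        by_cases h : p.1 ∈ T ∧ Prog g e s σ p.1 p.2
        · exact ((r1 _ h.1 _ h.2).2 u (hu.2 _ _ h.1 ((List.mem_tails _ _).1 hp.1) h.2)).mono
            fun _ h _ _ => h
        · exact Eventually.of_forall fun _ h1 h2 => (h ⟨h1, h2⟩).elim] with j h1 h2
    refine ⟨h1, fun t τ h3 h4 h5 => ?_⟩
    rcases List.suffix_cons_iff.1 h4 with rfl | h4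
    · exact (r1 _ h3 _ h5).1
    · exact h2 (t, τ) ⟨(List.mem_tails _ _).2 h4, h5.1.trans h4.length_le⟩ h3 h5
  · by_contra hi
    obtain ⟨n, n1, n2⟩ := Set.Infinite.exists_gt hi s.length
    obtain ⟨k, k1, k2⟩ := ((fo hg x (e (z n) (z (n + 1)))).and (eventually_gt_atTop σ.length)).exists
    have hl : s.length ≤ max (n + 2) (Encodable.encode (res x k)) := le_max_of_le_left (by omega)
    have hp : Prog g e s σ (res z (max (n + 2) (Encodable.encode (res x k)))) (res x k) :=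
      ⟨by simp, hx.suf k2.le, by simpa, res z n, z n, z (n + 1), hz.1.suf n2.le,
        res_suf z (n := n + 2) (le_max_left _ _), n1 ▸ k1⟩
    refine hi (r2 _ (hz.2 _ hl).1 _ hp z ⟨ex_res _ _, fun m hm => ?_⟩ x (ex_res _ _))
    rw [res_length] at hm
    exact (hz.2 m (hl.trans hm)).2 _ _ (hz.2 _ hl).1 (res_suf z hm) hp

theorem pick (hg : Continuous g) {σ : List ℕ} (h : ∃ s, ¬ Bad U g e s σ) {N : ℕ → ℕ → Prop}
    (hN : ∀ᶠ i in U, ∀ᶠ j in U, N i j) : ∃ i j τ, N i j ∧ σ <:+ τ ∧ σ.length < τ.length ∧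
      Fo g τ (e i j) true ∧ ∃ t, ¬ Bad U g e t τ := by
  obtain ⟨s, hs⟩ := h
  by_contra hc
  refine hs (clo hg (T := {t | (∀ u i j, s <:+ u → (j :: i :: u) <:+ t → N i j) ∧
    ∀ u i, s <:+ u → (i :: u) <:+ t → ∀ᶠ j in U, N i j}) ⟨⟨fun u i j h1 h2 => ?_,
    fun u i h1 h2 => ?_⟩, fun t ht => ?_⟩ fun t ht τ ⟨_, h1, h2, u, i, j, h3, h4, h5⟩ =>
    by_contra fun h => hc ⟨i, j, τ, ht.1 u i j h3 h4, h1, h2, h5, t, h⟩)
  · have := h1.length_le
    have := h2.length_le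
    simp at *
    omega
  · have := h1.length_le
    have := h2.length_le
    simp at *
    omega
  · have : ∀ᶠ j in U, ∀ u i, s <:+ u → t = i :: u → N i j := by
      by_cases h : ∃ u i, s <:+ u ∧ t = i :: u
      · obtain ⟨u, i, h1, rfl⟩ := h
        refine (ht.2 u i h1 (List.suffix_refl _)).mono fun j hj u' i' _ h => ?_
        rwa [← (List.cons.inj h).1]
      · exact Eventually.of_forall fun _ u i h1 h2 => (h ⟨u, i, h1, h2⟩).elim
    filter_upwards [this, hN] with j h1 h2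
    refine ⟨fun u i k h3 h4 => ?_, fun u i h3 h4 => ?_⟩
    · rcases List.suffix_cons_iff.1 h4 with h | h
      · obtain ⟨rfl, h'⟩ := List.cons.inj h
        exact h1 u i h3 h'.symm
      · exact ht.1 u i k h3 h
    · rcases List.suffix_cons_iff.1 h4 with h | h
      · rwa [(List.cons.inj h).1]
      · exact ht.2 u i h3 h

theorem two (hg : Continuous g) (he : ∀ i m, ∀ᶠ j in U, m < e i j) {σ τ : List ℕ}
    (h1 : ∃ s, ¬ Bad U g e s σ) (h2 : ∃ s, ¬ Bad U g e s τ) : ∃ x y, Ex σ x ∧ Ex τ y ∧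
      {m | g x m = true ∧ g y m = true}.Infinite ∧
      ∀ k, ∃ ρ, Ex ρ x ∧ k ≤ ρ.length ∧ ∃ s, ¬ Bad U g e s ρ := by
  have st : ∀ (m : ℕ) (p : {σ // ∃ s, ¬ Bad U g e s σ} × {σ // ∃ s, ¬ Bad U g e s σ}),
      ∃ q : {σ // ∃ s, ¬ Bad U g e s σ} × {σ // ∃ s, ¬ Bad U g e s σ},
        (p.1.1 <:+ q.1.1 ∧ p.1.1.length < q.1.1.length) ∧
        (p.2.1 <:+ q.2.1 ∧ p.2.1.length < q.2.1.length) ∧
        ∃ k, m < k ∧ Fo g q.1.1 k true ∧ Fo g q.2.1 k true := fun m p => by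
    have h3 : ∀ᶠ i in U, ∀ᶠ j in U, ∃ τ, p.1.1 <:+ τ ∧ p.1.1.length < τ.length ∧
        Fo g τ (e i j) true ∧ ∃ t, ¬ Bad U g e t τ := by
      by_contra h
      obtain ⟨i, j, τ, h4, h5⟩ := pick hg p.1.2 ((Ultrafilter.eventually_not.2 h).mono
        fun i hi => Ultrafilter.eventually_not.2 hi)
      exact h4 ⟨τ, h5⟩
    obtain ⟨i, j, τ, ⟨⟨ρ, a1, a2, a3, a4⟩, a5⟩, a6, a7, a8, a9⟩ := pick hg p.2.2
      (h3.mono fun i hi => hi.and (he i m))
    exact ⟨(⟨ρ, a4⟩, ⟨τ, a9⟩), ⟨a1, a2⟩, ⟨a6, a7⟩, _, a5, a3, a8⟩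
  choose F f1 f2 f3 using st
  let p : ℕ → {σ // ∃ s, ¬ Bad U g e s σ} × {σ // ∃ s, ¬ Bad U g e s σ} :=
    fun n => Nat.rec (⟨σ, h1⟩, ⟨τ, h2⟩) F n
  obtain ⟨x, hx⟩ := limx (fun n => (p n).1.1) (fun n => (f1 n _).1) fun n => (f1 n _).2
  obtain ⟨y, hy⟩ := limx (fun n => (p n).2.1) (fun n => (f2 n _).1) fun n => (f2 n _).2
  refine ⟨x, y, (hx 0).1, (hy 0).1, infinite_of_forall_exists_gt fun m => ?_,
    fun k => ⟨_, (hx k).1, (hx k).2, (p k).1.2⟩⟩
  obtain ⟨k, k1, k2, k3⟩ := f3 m (p m)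
  exact ⟨k, ⟨k2 x (hx (m + 1)).1, k3 y (hy (m + 1)).1⟩, k1⟩

theorem bad (hg : Continuous g) (he : ∀ i m, ∀ᶠ j in U, m < e i j)
    (h1 : ∀ x y, g x ≠ g y → {m | g x m = true ∧ g y m = true}.Finite)
    (h2 : ∀ x, ∀ᶠ i in U, ∀ᶠ j in U, g x (e i j) = false) : Bad U g e [] [] := by
  by_contra h
  obtain ⟨x, -, -, -, -, hx⟩ := two hg he ⟨_, h⟩ ⟨_, h⟩
  obtain ⟨i, j, τ, a1, -, -, a2, a3⟩ := pick hg ⟨_, h⟩ (h2 x)
  obtain ⟨k, hk⟩ := (fo hg x (e i j)).exists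
  obtain ⟨ρ, r1, r2, r3⟩ := hx k
  obtain ⟨y, w, y1, y2, y3, -⟩ := two hg he r3 a3
  refine y3 (h1 _ _ fun h => ?_)
  have := hk y (y1.mono (r1 ▸ res_suf x r2))
  rw [h, a2 w y2, a1] at this
  cases this

theorem cube (hU : (U : Filter ℕ) ≤ atTop) {T : Set (List ℕ)} (hT : UT U T []) {W : Set ℕ}
    (hW : W ∈ U) : ∃ V ⊆ W, V.Infinite ∧ ∀ z, StrictMono z → (∀ n, z n ∈ V) → Br T [] z := by
  have h1 : ∀ a : ℕ, ∃ b, (b ∈ W ∧ a < b) ∧ ∀ t ∈ T, t.length ≤ a + 1 → (∀ i ∈ t, i ≤ a) →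
      b :: t ∈ T := fun a => by
    have hf : {t : List ℕ | t.length ≤ a + 1 ∧ ∀ i ∈ t, i ≤ a}.Finite := by
      refine ((List.finite_length_le (Iic a) (a + 1)).image (List.map Subtype.val)).subset
        fun t ht => ⟨t.attachWith _ ht.2, by simpa using ht.1, by simp⟩
    obtain ⟨b, b1, b2⟩ := ((Eventually.and hW (hU (eventually_gt_atTop a))).and (hf.eventually_all
      (p := fun t b => t ∈ T → b :: t ∈ T) |>.2 fun t _ => by
        by_cases h : t ∈ T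
        · exact (hT.2 t h).mono fun _ h _ => h
        · exact Eventually.of_forall fun _ h' => (h h').elim)).exists
    exact ⟨b, b1, fun t h1 h2 h3 => b2 t ⟨h2, h3⟩ h1⟩
  choose f f1 f2 using h1
  have hm : StrictMono fun k => f^[k] 0 := strictMono_nat_of_lt_succ fun k => by
    rw [iterate_succ_apply']; exact (f1 _).2
  refine ⟨range fun k => f (f^[k] 0), range_subset_iff.2 fun k => (f1 _).1,
    infinite_range_of_injective fun k l h => Nat.succ_injective (hm.injective (by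
      simpa only [iterate_succ_apply'] using h)), fun z z1 z2 => ⟨rfl, fun n _ => ?_⟩⟩
  have h2 : ∀ n, ∀ i ∈ res z n, ∃ m < n, z m = i := fun n => by
    induction n with
    | zero => simp
    | succ n ih =>
      intro i hi
      rcases List.mem_cons.1 hi with rfl | hi
      · exact ⟨n, n.lt_succ_self, rfl⟩
      · exact (ih i hi).imp fun m h => ⟨h.1.trans n.lt_succ_self, h.2⟩
  induction n with
  | zero => exact hT.1
  | succ n ih =>
    obtain ⟨k, hk : f _ = _⟩ := z2 n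
    have h3 : ∀ m < n, z m ≤ f^[k] 0 := fun m hmn => by
      obtain ⟨l, hl : f _ = _⟩ := z2 m
      have := z1 hmn
      rw [← hk, ← hl, ← iterate_succ_apply' f, ← iterate_succ_apply' f] at this
      rw [← hl, ← iterate_succ_apply' f]
      exact hm.monotone (Nat.le_of_lt_succ (hm.lt_iff_lt.1 this))
    rw [res_succ, ← hk]
    refine f2 _ _ (ih n.zero_le) ?_ fun i hi => ?_
    · rw [res_length]
      rcases n with _ | n
      · omega
      · exact Nat.succ_le_succ ((z1.id_le n).trans (h3 n n.lt_succ_self))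
    · obtain ⟨m, m1, rfl⟩ := h2 n i hi
      exact h3 m m1

end

end Pool.Agent.H.MP_3ce754_lc
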