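import Mathlib
import Pool.Agent.H.MP_3ce754_lc.A

set_option autoImplicit false

namespace Pool.Agent.H.MP_3ce754_lc

open Set Filter Topology Function PiNat

variable {U : Ultrafilter ℕ} {g : (ℕ → ℕ) → ℕ → Bool} {e : ℕ → ℕ → ℕ}

def Gd (U : Ultrafilter ℕ) (g : (ℕ → ℕ) → ℕ → Bool) (e : ℕ → ℕ → ℕ) (σ : List ℕ) : Prop :=
  ∃ s, ¬ Bad U g e s σ

theorem most (hg : Continuous g) {σ : List ℕ} (h : Gd U g e σ) : ∀ᶠ i in U, ∀ᶠ j in U,
    ∃ τ, σ <:+ τ ∧ σ.length < τ.length ∧ Fo g τ (e i j) true ∧ Gd U g e τ := by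
  by_contra h'
  obtain ⟨i, j, τ, h4, h5⟩ := pick hg h ((Ultrafilter.eventually_not.2 h').mono
    fun i hi => Ultrafilter.eventually_not.2 hi)
  exact h4 ⟨τ, h5⟩

theorem multi (hg : Continuous g) {κ : ℕ → ℕ → ℕ} (he : ∀ i m, ∀ᶠ j in U, m < κ i j) {ι : Type}
    [Finite ι] (σ : ι → List ℕ) (h : ∀ a, Gd U g e (σ a)) : ∃ x : ι → ℕ → ℕ,
      (∀ a, Ex (σ a) (x a) ∧ ∀ k, ∃ ρ, σ a <:+ ρ ∧ Ex ρ (x a) ∧ k ≤ ρ.length ∧ Gd U g e ρ) ∧
      ∀ m, ∃ i j, m < κ i j ∧ ∀ a, g (x a) (e i j) = true := by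
  have st : ∀ (m : ℕ) (p : ι → {σ // Gd U g e σ}), ∃ q : ι → {σ // Gd U g e σ},
      (∀ a, (p a).1 <:+ (q a).1 ∧ (p a).1.length < (q a).1.length) ∧
        ∃ i j, m < κ i j ∧ ∀ a, Fo g (q a).1 (e i j) true := fun m p => by
    obtain ⟨i, hi⟩ := (eventually_all.2 fun a => most hg (p a).2).exists
    obtain ⟨j, j1, j2⟩ := ((he i m).and (eventually_all.2 hi)).exists
    choose τ t1 t2 t3 t4 using j2
    exact ⟨fun a => ⟨τ a, t4 a⟩, fun a => ⟨t1 a, t2 a⟩, i, j, j1, t3⟩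
  choose F f1 f2 using st
  let p : ℕ → ι → {σ // Gd U g e σ} := fun n => Nat.rec (fun a => ⟨σ a, h a⟩) F n
  choose x hx using fun a => limx (fun n => (p n a).1) (fun n => (f1 n _ a).1) fun n => (f1 n _ a).2
  refine ⟨x, fun a => ⟨(hx a 0).1, fun k => ⟨_, ?_, (hx a k).1, (hx a k).2, (p k a).2⟩⟩,
    fun m => ?_⟩
  · induction k with
    | zero => exact List.suffix_refl _
    | succ k ih => exact ih.trans (f1 k _ a).1
  · obtain ⟨i, j, k1, k2⟩ := f2 m (p m)
    exact ⟨i, j, k1, fun a => k2 a _ (hx a (m + 1)).1⟩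

theorem many (hg : Continuous g) {σ : List ℕ} (h : Gd U g e σ)
    (h2 : ∀ x, ∀ᶠ i in U, ∀ᶠ j in U, g x (e i j) = false) (hU : (U : Filter ℕ) ≤ atTop) (n : ℕ) :
    ∃ τ : Fin n → List ℕ, (∀ a, σ <:+ τ a ∧ Gd U g e (τ a)) ∧
      ∀ a b, a ≠ b → ∀ x y, Ex (τ a) x → Ex (τ b) y → g x ≠ g y := by
  induction n with
  | zero => exact ⟨Fin.elim0, fun a => a.elim0, fun a => a.elim0⟩
  | succ n ih =>
    obtain ⟨τ, t1, t2⟩ := ih
    obtain ⟨x, hx, -⟩ := multi hg (κ := fun _ j => j) (fun _ m => hU (eventually_gt_atTop m)) τ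
      fun a => (t1 a).2
    obtain ⟨i, j, ρ, a1, a2, -, a3, a4⟩ := pick hg h ((eventually_all.2 fun a => h2 (x a)).mono
      fun i hi => eventually_all.2 hi)
    choose k hk using fun a => (fo hg (x a) (e i j)).exists
    choose μ m1 m2 m3 m4 using fun a => (hx a).2 (k a)
    have h3 : ∀ a y w, Ex (μ a) y → Ex ρ w → g y ≠ g w := fun a y w y1 w1 h => by
      have := hk a y (y1.mono (m2 a ▸ res_suf _ (m3 a)))
      rw [h, a3 w w1, a1 a] at this
      cases this
    refine ⟨Fin.cons ρ μ, Fin.cases ⟨a2, a4⟩ fun a => ⟨(t1 a).1.trans (m1 a), m4 a⟩,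
      Fin.cases (Fin.cases (fun h => (h rfl).elim) fun b _ y w y1 w1 => (h3 b w y w1 y1).symm)
        fun a => Fin.cases (fun _ y w => h3 a y w) fun b h y w y1 w1 =>
          t2 a b (fun e => h (by rw [e])) y w (Ex.mono (m1 a) y1) (Ex.mono (m1 b) w1)⟩

theorem bonf {ι : Type} [DecidableEq ι] (P : ι → Finset ℕ) (t : ℕ)
    (h : ∀ a b, a ≠ b → (P a ∩ P b).card ≤ t) (s : Finset ι) :
    ∑ a ∈ s, (P a).card ≤ (s.biUnion P).card + s.card * s.card * t := by
  induction s using Finset.induction_on with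
  | empty => simp
  | insert a s ha ih =>
    rw [Finset.sum_insert ha, Finset.biUnion_insert, Finset.card_insert_of_notMem ha]
    have h1 := Finset.card_union_add_card_inter (P a) (s.biUnion P)
    have h2 : (P a ∩ s.biUnion P).card ≤ s.card * t := by
      rw [Finset.inter_biUnion]
      exact Finset.card_biUnion_le_card_mul _ _ _ fun b hb => h a b fun e => ha (e ▸ hb)
    nlinarith

open Classical in
noncomputable def pc (A : Set ℕ) (k : ℕ) : Finset ℕ :=
  (Finset.Ico (2 ^ k) (2 ^ (k + 1))).filter (· ∈ A)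

def Z0 (A : Set ℕ) : Prop := Tendsto (fun n : ℕ => ((A ∩ Iio n).ncard : ℝ) / n) atTop (𝓝 0)

theorem z0_iff {A : Set ℕ} : Z0 A ↔ ∀ r, {k | 2 ^ k ≤ (r + 1) * (pc A k).card}.Finite := by
  have hf : ∀ n, (A ∩ Iio n).Finite := fun n => (finite_Iio n).inter_of_right _
  have h1 : ∀ k, (A ∩ Iio (2 ^ (k + 1))).ncard = (A ∩ Iio (2 ^ k)).ncard + (pc A k).card :=
    fun k => by
      rw [← ncard_coe_finset, ← ncard_union_eq _ (hf _) (Finset.finite_toSet _)]
      · congr 1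
        ext m
        have := Nat.pow_lt_pow_succ (a := 2) (n := k) one_lt_two
        simp only [pc, mem_inter_iff, mem_Iio, mem_union, Finset.coe_filter, Finset.mem_Ico,
          mem_ofPred_eq]
        by_cases h : m ∈ A <;> simp only [h, true_and, and_true, false_and, and_false, or_self]
        omega
      · exact disjoint_left.2 fun m h1 h2 => by
          simp only [pc, Finset.coe_filter, Finset.mem_Ico, mem_ofPred_eq] at h2
          exact h2.1.1.not_gt h1.2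
  refine ⟨fun h r => ?_, fun h => Metric.tendsto_atTop.2 fun ε hε => ?_⟩
  · obtain ⟨N, hN⟩ := eventually_atTop.1 (h.eventually (gt_mem_nhds
      (show (0 : ℝ) < 1 / (2 * (r + 1)) by positivity)))
    refine (finite_Iio N).subset fun k hk => show k < N from not_le.1 fun hk' => ?_
    have h2 := hN (2 ^ (k + 1)) (hk'.trans (k.le_succ.trans Nat.lt_two_pow_self.le))
    rw [h1, div_lt_div_iff₀ (by positivity) (by positivity)] at h2
    have h3 : (2 : ℝ) ^ k ≤ (r + 1) * (pc A k).card := by exact_mod_cast hk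
    push_cast at h2
    rw [pow_succ] at h2
    nlinarith [show (0 : ℝ) ≤ ((A ∩ Iio (2 ^ k)).ncard : ℝ) * (r + 1) by positivity]
  · obtain ⟨r, hr⟩ := exists_nat_gt (4 / ε)
    obtain ⟨K, hK⟩ := (h r).bddAbove
    have h2 : ∀ k, K + 1 ≤ k → (r + 1) * (A ∩ Iio (2 ^ k)).ncard ≤ (r + 1) * 2 ^ (K + 1) + 2 ^ k :=
      fun k hk => by
        induction k, hk using Nat.le_induction with
        | base =>
          have := ncard_le_ncard (inter_subset_right (s := A)) (finite_Iio (2 ^ (K + 1)))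
          rw [ncard_Iio_nat] at this
          nlinarith [Nat.zero_le (2 ^ (K + 1))]
        | succ k hk ih =>
          have : (r + 1) * (pc A k).card < 2 ^ k := not_le.1 fun h => absurd (hK h) (by omega)
          rw [h1, pow_succ 2 k]
          nlinarith
    obtain ⟨N, hN⟩ := exists_nat_gt (2 * 2 ^ (K + 1) / ε)
    refine ⟨max N (2 ^ K), fun n hn => ?_⟩
    have n1 : 2 ^ K ≤ n := le_of_max_le_right hn
    have n0 : 0 < n := (Nat.two_pow_pos K).trans_le n1
    have h3 := h2 (Nat.log 2 n + 1) (Nat.succ_le_succ (Nat.le_log_of_pow_le one_lt_two n1))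
    have h4 := ncard_le_ncard (inter_subset_inter_right A (Iio_subset_Iio
      (Nat.lt_pow_succ_log_self one_lt_two n).le)) (hf _)
    have h5 := Nat.pow_log_le_self 2 n0.ne'
    have h6 : (r + 1) * (A ∩ Iio n).ncard ≤ (r + 1) * 2 ^ (K + 1) + 2 * n := by
      have := pow_succ 2 (Nat.log 2 n)
      exact (Nat.mul_le_mul_left _ h4).trans (h3.trans (by omega))
    have h7 : ((r : ℝ) + 1) * (A ∩ Iio n).ncard ≤ (r + 1) * 2 ^ (K + 1) + 2 * n := by
      exact_mod_cast h6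
    have n2 : (N : ℝ) ≤ n := by exact_mod_cast le_of_max_le_left hn
    have n3 : (0 : ℝ) < n := by exact_mod_cast n0
    rw [div_lt_iff₀ hε] at hr hN
    rw [Real.dist_eq, sub_zero, abs_of_nonneg (by positivity), div_lt_iff₀ n3]
    refine lt_of_mul_lt_mul_left (a := (r : ℝ) + 1) ?_ (by positivity)
    nlinarith [mul_le_mul_of_nonneg_right n2 hε.le, mul_pos hε n3,
      mul_lt_mul_of_pos_left (hN.trans_le (mul_le_mul_of_nonneg_right n2 hε.le))
        (show (0 : ℝ) < r + 1 by positivity)]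

end Pool.Agent.H.MP_3ce754_lc
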